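import Pool.Agent.TH697.Row.Core

set_option autoImplicit false

/-! # The final bounds -/

namespace Pool.Agent.TH697.Row

open Finset Pool.Agent.TH697.Form

section

variable {n : ℕ}

/-- one row can query many bits -/
def RowQuery (g : (Fin n → Fin n → Bool) → Bool) : Prop :=
  ∀ i : Fin n, i.val < n / 2 →
    ∃ (Q : Fin ((n - 1) / 6) × Fin ((n - 1) / 6) → Fin n → Bool)
      (R : (Fin ((n - 1) / 6) × Fin ((n - 1) / 6) → Bool) → Fin n → Fin n → Bool),
      ∀ t z, g (Function.update (R z) i (Q t)) = z t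

lemma card_half : (univ.filter (fun i : Fin n => i.val < n / 2)).card = n / 2 := by
  rw [Fin.card_filter_val_lt]
  omega

lemma hyp_of_query {g : (Fin n → Fin n → Bool) → Bool} (hg : RowQuery g) :
    ∀ i ∈ (univ.filter (fun i : Fin n => i.val < n / 2)),
      ∃ (r : Fin ((n - 1) / 6) × Fin ((n - 1) / 6) → ℕ)
        (q : Fin ((n - 1) / 6) × Fin ((n - 1) / 6) →
          (Fin ((n - 1) / 6) × Fin ((n - 1) / 6) → Bool) → Fin n → Bool)
        (R : (Fin ((n - 1) / 6) × Fin ((n - 1) / 6) → Bool) → Fin n → Fin n → Bool),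
      (∀ t z z', (∀ s, r s < r t → z s = z' s) → q t z = q t z') ∧
      ∀ t z, g (Function.update (R z) i (q t z)) = z t := by
  intro i hi
  obtain ⟨Q, R, h⟩ := hg i (mem_filter.1 hi).2
  exact ⟨fun _ => 0, fun t _ => Q t, R, fun _ _ _ _ => rfl, h⟩

lemma card_T : ((Fintype.card (Fin ((n - 1) / 6) × Fin ((n - 1) / 6)) : ℕ) : ℝ)
    = (((n - 1) / 6 : ℕ) : ℝ) ^ 2 := by
  rw [Fintype.card_prod, Fintype.card_fin]; push_cast; ring

lemma m_ge (hn : 200 ≤ n) : (0.161 : ℝ) * n ≤ (((n - 1) / 6 : ℕ) : ℝ) := by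
  have h1 : n ≤ 6 * ((n - 1) / 6) + 6 := by omega
  have h2 : (n : ℝ) ≤ 6 * (((n - 1) / 6 : ℕ) : ℝ) + 6 := by exact_mod_cast h1
  have h3 : (200 : ℝ) ≤ n := by exact_mod_cast hn
  linarith

lemma half_ge (hn : 200 ≤ n) : (0.497 : ℝ) * n ≤ ((n / 2 : ℕ) : ℝ) := by
  have h1 : n ≤ 2 * (n / 2) + 1 := by omega
  have h2 : (n : ℝ) ≤ 2 * ((n / 2 : ℕ) : ℝ) + 1 := by exact_mod_cast h1
  have h3 : (200 : ℝ) ≤ n := by exact_mod_cast hn
  linarith

/-- the bound for formulas -/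
theorem formula_bound (hn : 200 ≤ n) {g : (Fin n → Fin n → Bool) → Bool} (hg : RowQuery g)
    {Ω : Type} [Fintype Ω] (μ : Ω → ℝ) (hμ : IsProb μ)
    (F : Ω → Fml (Fin n) (fun _ => Fin n → Bool)) (hF : Approximates μ (fun ω => (F ω).eval) g) :
    (n : ℝ) ^ 3 / 4000 ≤ expSize μ F := by
  have h1 := formula_lower μ hμ F g hF _ (hyp_of_query hg)
  rw [card_half, card_T] at h1
  have hm := m_ge hn
  have hh := half_ge hn
  have h3 : (200 : ℝ) ≤ n := by exact_mod_cast hn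
  have hm2 : (0.0259 : ℝ) * (n : ℝ) ^ 2 ≤ (((n - 1) / 6 : ℕ) : ℝ) ^ 2 := by
    have := pow_le_pow_left₀ (by positivity) hm 2
    calc (0.0259 : ℝ) * (n : ℝ) ^ 2 ≤ (0.161 * n) ^ 2 := by
          rw [mul_pow]
          apply mul_le_mul_of_nonneg_right (by norm_num) (by positivity)
      _ ≤ _ := this
  have h4 : (0.00208 : ℝ) * (n : ℝ) ^ 2 ≤ 49 / 600 * (((n - 1) / 6 : ℕ) : ℝ) ^ 2 - 1 := by
    have h5 : (200 : ℝ) ^ 2 ≤ (n : ℝ) ^ 2 := pow_le_pow_left₀ (by norm_num) h3 2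
    linarith
  have h6 : (0.497 * (n : ℝ)) * (0.00208 * (n : ℝ) ^ 2) ≤ ((n / 2 : ℕ) : ℝ) *
      (49 / 600 * (((n - 1) / 6 : ℕ) : ℝ) ^ 2 - 1) := by
    apply mul_le_mul hh h4 (by positivity) (by positivity)
  have h7 : (0.497 * (n : ℝ)) * (0.00208 * (n : ℝ) ^ 2) = 0.00103376 * (n : ℝ) ^ 3 := by ring
  have h8 : (0 : ℝ) ≤ (n : ℝ) ^ 3 := by positivity
  linarith

/-- the bound for branching programs -/
theorem program_bound (hn : 4000 ≤ n) {g : (Fin n → Fin n → Bool) → Bool} (hg : RowQuery g)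
    {Ω : Type} [Fintype Ω] (μ : Ω → ℝ) (hμ : IsProb μ) {s : ℕ}
    (B : Ω → Program (Fin n) (fun _ => Fin n → Bool) s)
    (hB : Approximates μ (fun ω => (B ω).eval) g) :
    (n : ℝ) ^ 3 / (10000 * Real.logb 2 n) ≤ s := by
  have h1 := program_lower μ hμ B g hB _ (hyp_of_query hg)
  rw [card_half, card_T] at h1
  have hm := m_ge (by omega : 200 ≤ n)
  have hh := half_ge (by omega : 200 ≤ n)
  have h3 : (4000 : ℝ) ≤ n := by exact_mod_cast hn
  have hn0 : (0 : ℝ) < n := by linarith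
  have hlog2 : 0 < Real.log 2 := Real.log_pos (by norm_num)
  have hlogn : 0 < Real.log n := Real.log_pos (by linarith)
  have hLg : Real.logb 2 n = Real.log n / Real.log 2 := rfl
  have hLg0 : 0 < Real.logb 2 n := by rw [hLg]; positivity
  have hLgn : Real.logb 2 n ≤ n := by
    rw [hLg, div_le_iff₀ hlog2]
    have h4 : Real.log ((n : ℝ) / 2) ≤ n / 2 - 1 := Real.log_le_sub_one_of_pos (by positivity)
    rw [Real.log_div (by positivity) (by norm_num)] at h4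
    have h5 := Real.log_two_gt_d9
    have h6 := Real.log_two_lt_d9
    nlinarith
  have hm2 : (0.0259 : ℝ) * (n : ℝ) ^ 2 ≤ (((n - 1) / 6 : ℕ) : ℝ) ^ 2 := by
    have := pow_le_pow_left₀ (by positivity) hm 2
    calc (0.0259 : ℝ) * (n : ℝ) ^ 2 ≤ (0.161 * n) ^ 2 := by
          rw [mul_pow]
          apply mul_le_mul_of_nonneg_right (by norm_num) (by positivity)
      _ ≤ _ := this
  have h6 : 0.00105 * (n : ℝ) ^ 3 * Real.log 2 ≤ ((n / 2 : ℕ) : ℝ) *
      (49 / 600 * (((n - 1) / 6 : ℕ) : ℝ) ^ 2 * Real.log 2) := by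
    have h7 : (0.497 * (n : ℝ)) * (49 / 600 * (0.0259 * (n : ℝ) ^ 2) * Real.log 2) ≤
        ((n / 2 : ℕ) : ℝ) * (49 / 600 * (((n - 1) / 6 : ℕ) : ℝ) ^ 2 * Real.log 2) := by
      apply mul_le_mul hh _ (by positivity) (by positivity)
      apply mul_le_mul_of_nonneg_right _ hlog2.le
      exact mul_le_mul_of_nonneg_left hm2 (by norm_num)
    have h8 : (0.497 * (n : ℝ)) * (49 / 600 * (0.0259 * (n : ℝ) ^ 2) * Real.log 2)
        = (0.497 * (49 / 600) * 0.0259) * ((n : ℝ) ^ 3 * Real.log 2) := by ring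
    have h9 : (0 : ℝ) ≤ (n : ℝ) ^ 3 * Real.log 2 := by positivity
    have h10 : (0.00105 : ℝ) ≤ 0.497 * (49 / 600) * 0.0259 := by norm_num
    have h11 := mul_le_mul_of_nonneg_right h10 h9
    calc 0.00105 * (n : ℝ) ^ 3 * Real.log 2 = 0.00105 * ((n : ℝ) ^ 3 * Real.log 2) := by ring
      _ ≤ _ := h11
      _ ≤ _ := by rw [← h8]; exact h7
  by_contra hcon
  push Not at hcon
  rw [lt_div_iff₀ (by positivity)] at hcon
  -- s + 2 ≤ n ^ 3
  have hs3 : (s : ℝ) + 2 ≤ (n : ℝ) ^ 3 := by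
    have h7 : (1 : ℝ) ≤ Real.logb 2 n := by
      rw [hLg, le_div_iff₀ hlog2, one_mul]
      exact Real.log_le_log (by norm_num) (by linarith)
    have h8 : (s : ℝ) * 10000 ≤ s * (10000 * Real.logb 2 n) := by
      apply mul_le_mul_of_nonneg_left _ (by positivity)
      linarith
    have h9 : (4000 : ℝ) ^ 3 ≤ (n : ℝ) ^ 3 := pow_le_pow_left₀ (by norm_num) h3 3
    linarith
  have hlogs : Real.log ((s : ℝ) + 2) ≤ 3 * Real.log n := by
    have h7 := Real.log_le_log (by positivity) hs3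
    rw [Real.log_pow] at h7
    push_cast at h7
    exact h7
  have hlogn2 : Real.log n = Real.logb 2 n * Real.log 2 := by
    rw [hLg]; field_simp
  have h10 : (2 * (s : ℝ) + ((n / 2 : ℕ) : ℝ)) * Real.log (s + 2)
      ≤ (2 * (s : ℝ) + n / 2) * (3 * (Real.logb 2 n * Real.log 2)) := by
    rw [← hlogn2]
    apply mul_le_mul _ hlogs
    · apply Real.log_nonneg
      have : (0 : ℝ) ≤ s := by positivity
      linarith
    · positivity
    · have h11 : 2 * (n / 2) ≤ n := by omega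
      have h12 : 2 * ((n / 2 : ℕ) : ℝ) ≤ n := by exact_mod_cast h11
      linarith
  have h13 := (h6.trans h1).trans h10
  have h14 : 0.00105 * (n : ℝ) ^ 3 ≤ (2 * (s : ℝ) + n / 2) * (3 * Real.logb 2 n) := by
    have h15 : (2 * (s : ℝ) + n / 2) * (3 * (Real.logb 2 n * Real.log 2))
        = (2 * (s : ℝ) + n / 2) * (3 * Real.logb 2 n) * Real.log 2 := by ring
    rw [h15] at h13
    exact le_of_mul_le_mul_right h13 hlog2
  have h16 : (n : ℝ) / 2 * (3 * Real.logb 2 n) ≤ 1.5 * (n : ℝ) ^ 2 := by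
    calc (n : ℝ) / 2 * (3 * Real.logb 2 n) ≤ (n : ℝ) / 2 * (3 * n) := by
          apply mul_le_mul_of_nonneg_left _ (by positivity)
          linarith
      _ = _ := by ring
  have h17 : 1.5 * (n : ℝ) ^ 2 ≤ 0.0004 * (n : ℝ) ^ 3 := by
    have h18 : (4000 : ℝ) * (n : ℝ) ^ 2 ≤ n * (n : ℝ) ^ 2 :=
      mul_le_mul_of_nonneg_right h3 (by positivity)
    have e : (n : ℝ) * (n : ℝ) ^ 2 = (n : ℝ) ^ 3 := by ring
    rw [e] at h18
    have : (0 : ℝ) ≤ (n : ℝ) ^ 2 := by positivity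
    linarith
  have h19 : (2 * (s : ℝ) + n / 2) * (3 * Real.logb 2 n)
      = 6 / 10000 * (s * (10000 * Real.logb 2 n)) + n / 2 * (3 * Real.logb 2 n) := by ring
  rw [h19] at h14
  have h20 : (0 : ℝ) < (n : ℝ) ^ 3 := by positivity
  linarith

end

end Pool.Agent.TH697.Row
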