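import Pool.Agent.TH697.Row.Graph

set_option autoImplicit false

/-! # Hamilton cycles and one row of the adjacency matrix -/

namespace Pool.Agent.TH697.Row

open Finset

/-! ## the two neighbours on a Hamilton cycle -/

section

variable {W : Type} [DecidableEq W] {n : ℕ}

/-- the two neighbours on the cycle -/
def nb (f : Fin n ≃ W) (w : W) : Finset W :=
  {f (finRotate n (f.symm w)), f ((finRotate n).symm (f.symm w))}

lemma rot_rot (hn : 3 ≤ n) (x : Fin n) : finRotate n x ≠ (finRotate n).symm x := by
  obtain ⟨k, rfl⟩ : ∃ k, n = k + 1 := ⟨n - 1, by omega⟩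
  intro h
  have h1 := congrArg (finRotate (k + 1)) h
  rw [Equiv.apply_symm_apply, finRotate_apply, finRotate_apply] at h1
  have h2 : (1 + 1 : Fin (k + 1)) = 0 := by
    have h3 : x + (1 + 1) = x + 0 := by rw [← add_assoc, add_zero]; exact h1
    exact add_left_cancel h3
  have h3 := congrArg Fin.val h2
  rw [Fin.val_add, Fin.val_one', Fin.val_zero] at h3
  have h4 : 1 % (k + 1) = 1 := Nat.mod_eq_of_lt (by omega)
  rw [h4] at h3
  have h5 : (1 + 1) % (k + 1) = 2 := Nat.mod_eq_of_lt (by omega)
  rw [h5] at h3
  omega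

lemma nb_card (hn : 3 ≤ n) (f : Fin n ≃ W) (w : W) : (nb f w).card = 2 := by
  unfold nb
  rw [Finset.card_pair]
  exact fun h => rot_rot hn _ (f.injective h)

lemma nb_adj {G : SimpleGraph W} {f : Fin n ≃ W} (hf : ∀ i, G.Adj (f i) (f (finRotate n i)))
    {w u : W} (h : u ∈ nb f w) : G.Adj w u := by
  unfold nb at h
  rw [Finset.mem_insert, Finset.mem_singleton] at h
  rcases h with rfl | rfl
  · have := hf (f.symm w)
    rwa [Equiv.apply_symm_apply] at this
  · have := hf ((finRotate n).symm (f.symm w))
    rw [Equiv.apply_symm_apply, Equiv.apply_symm_apply] at this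
    exact this.symm

lemma nb_symm {f : Fin n ≃ W} {w u : W} (h : u ∈ nb f w) : w ∈ nb f u := by
  unfold nb at h ⊢
  rw [Finset.mem_insert, Finset.mem_singleton] at h ⊢
  rcases h with rfl | rfl
  · right
    rw [Equiv.symm_apply_apply, Equiv.symm_apply_apply, Equiv.apply_symm_apply]
  · left
    rw [Equiv.symm_apply_apply, Equiv.apply_symm_apply, Equiv.apply_symm_apply]

lemma nb_forced (hn : 3 ≤ n) {G : SimpleGraph W} {f : Fin n ≃ W}
    (hf : ∀ i, G.Adj (f i) (f (finRotate n i))) {w a b : W} (hw : ∀ u, G.Adj w u → u = a ∨ u = b) :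
    nb f w = {a, b} := by
  apply Finset.eq_of_subset_of_card_le
  · intro u hu
    rw [Finset.mem_insert, Finset.mem_singleton]
    exact hw u (nb_adj hf hu)
  · rw [nb_card hn]
    exact Finset.card_le_two

end

/-! ## the graph -/

section

variable {m p q : ℕ}

/-- the vertices which may be neighbours of the special vertex -/
def al (p : ℕ) {m : ℕ} (s : Fin m) : ZMod p := ((3 * (s.val : ℤ) : ℤ) : ZMod p)

/-- the vertices which are joined according to the string -/
def be (p : ℕ) {m : ℕ} (s : Fin m) : ZMod p := ((3 * (s.val : ℤ) + -1 : ℤ) : ZMod p)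

lemma be_eq (s : Fin m) : be p s = al p s - 1 := by
  unfold be al; push_cast; ring

/-- half of the adjacency relation -/
def rel (z : Fin m × Fin m → Bool) : ZMod p ⊕ ZMod q → ZMod p ⊕ ZMod q → Prop
  | Sum.inl a, Sum.inl b => b = a + 1
  | Sum.inr a, Sum.inr b => b = a + 1
  | Sum.inl a, Sum.inr b => ∃ s t : Fin m, z (s, t) = true ∧ a = be p s ∧ b = be q t
  | Sum.inr _, Sum.inl _ => False

/-- two cycles, with edges between them according to the string -/
def base (p q : ℕ) (z : Fin m × Fin m → Bool) : SimpleGraph (ZMod p ⊕ ZMod q) :=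
  SimpleGraph.fromRel (rel z)

lemma zkey (hp : 3 * m ≤ p) (s s' : Fin m) (c : ℤ) (hc : |c| ≤ 2)
    (h : ((3 * (s.val : ℤ) + c : ℤ) : ZMod p) = ((3 * (s'.val : ℤ) : ℤ) : ZMod p)) :
    3 * (s.val : ℤ) + c = 3 * s'.val := by
  have h1 := (ZMod.intCast_eq_intCast_iff_dvd_sub _ _ p).1 h
  have h2 : |3 * (s'.val : ℤ) - (3 * s.val + c)| < p := by
    have h3 := s.2
    have h4 := s'.2
    rw [abs_le] at hc
    rw [abs_lt]
    constructor <;> omega
  have := Int.eq_zero_of_abs_lt_dvd h1 h2
  omega

lemma al_inj (hp : 3 * m ≤ p) {s s' : Fin m} (h : al p s = al p s') : s = s' := by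
  have := zkey hp s s' 0 (by norm_num) (by rw [add_zero]; exact h)
  apply Fin.ext
  omega

lemma be_inj (hp : 3 * m ≤ p) {s s' : Fin m} (h : be p s = be p s') : s = s' := by
  rw [be_eq, be_eq] at h
  exact al_inj hp (by linear_combination h)

lemma al_ne_be (hp : 3 * m ≤ p) (s s' : Fin m) : al p s ≠ be p s' := by
  intro h
  have h1 : ((3 * (s.val : ℤ) + 1 : ℤ) : ZMod p) = ((3 * (s'.val : ℤ) : ℤ) : ZMod p) := by
    rw [be_eq] at h
    unfold al at h
    push_cast at h ⊢
    linear_combination h
  have := zkey hp s s' 1 (by norm_num) h1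
  omega

lemma al_succ_ne_be (hp : 3 * m ≤ p) (s s' : Fin m) : al p s + 1 ≠ be p s' := by
  intro h
  have h1 : ((3 * (s.val : ℤ) + 2 : ℤ) : ZMod p) = ((3 * (s'.val : ℤ) : ℤ) : ZMod p) := by
    rw [be_eq] at h
    unfold al at h
    push_cast at h ⊢
    linear_combination h
  have := zkey hp s s' 2 (by norm_num) h1
  omega

lemma be_pred_ne_be (hp : 3 * m ≤ p) (s s' : Fin m) : be p s - 1 ≠ be p s' := by
  intro h
  have h1 : ((3 * (s.val : ℤ) + -1 : ℤ) : ZMod p) = ((3 * (s'.val : ℤ) : ℤ) : ZMod p) := by
    rw [be_eq, be_eq] at h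
    unfold al at h
    push_cast at h ⊢
    linear_combination h
  have := zkey hp s s' (-1) (by norm_num) h1
  omega

lemma be_pred_ne_al (hp : 3 * m ≤ p) (s s' : Fin m) : be p s - 1 ≠ al p s' := by
  intro h
  have h1 : ((3 * (s.val : ℤ) + -2 : ℤ) : ZMod p) = ((3 * (s'.val : ℤ) : ℤ) : ZMod p) := by
    rw [be_eq] at h
    unfold al at h
    push_cast at h ⊢
    linear_combination h
  have := zkey hp s s' (-2) (by norm_num) h1
  omega

/-- the neighbours of the special vertex -/
def ask (p q : ℕ) (t : Fin m × Fin m) : Finset (ZMod p ⊕ ZMod q) :=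
  {Sum.inl (al p t.1), Sum.inr (al q t.2)}

lemma adj_inl {z : Fin m × Fin m → Bool} {Q : Finset (ZMod p ⊕ ZMod q)} {a : ZMod p}
    {u : Option (ZMod p ⊕ ZMod q)} (h : (addVertex (base p q z) Q).Adj (some (Sum.inl a)) u) :
    (u = none ∧ Sum.inl a ∈ Q) ∨ u = some (Sum.inl (a + 1)) ∨ u = some (Sum.inl (a - 1)) ∨
      ∃ s t : Fin m, z (s, t) = true ∧ a = be p s ∧ u = some (Sum.inr (be q t)) := by
  rcases u with _ | (b | b)
  · exact Or.inl ⟨rfl, h⟩
  · have h' : (base p q z).Adj (Sum.inl a) (Sum.inl b) := h
    unfold base at h'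
    rw [SimpleGraph.fromRel_adj] at h'
    rcases h'.2 with h1 | h1
    · have h1' : b = a + 1 := h1
      exact Or.inr (Or.inl (by rw [h1']))
    · have h1' : a = b + 1 := h1
      refine Or.inr (Or.inr (Or.inl ?_))
      rw [h1']; congr 2; ring
  · have h' : (base p q z).Adj (Sum.inl a) (Sum.inr b) := h
    unfold base at h'
    rw [SimpleGraph.fromRel_adj] at h'
    rcases h'.2 with h1 | h1
    · obtain ⟨s, t, hz, ha, hb⟩ := h1
      exact Or.inr (Or.inr (Or.inr ⟨s, t, hz, ha, by rw [hb]⟩))
    · exact absurd h1 (fun h => h)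

lemma adj_inr {z : Fin m × Fin m → Bool} {Q : Finset (ZMod p ⊕ ZMod q)} {a : ZMod q}
    {u : Option (ZMod p ⊕ ZMod q)} (h : (addVertex (base p q z) Q).Adj (some (Sum.inr a)) u) :
    (u = none ∧ Sum.inr a ∈ Q) ∨ u = some (Sum.inr (a + 1)) ∨ u = some (Sum.inr (a - 1)) ∨
      ∃ s t : Fin m, z (s, t) = true ∧ a = be q t ∧ u = some (Sum.inl (be p s)) := by
  rcases u with _ | (b | b)
  · exact Or.inl ⟨rfl, h⟩
  · have h' : (base p q z).Adj (Sum.inr a) (Sum.inl b) := h
    unfold base at h'
    rw [SimpleGraph.fromRel_adj] at h'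
    rcases h'.2 with h1 | h1
    · exact absurd h1 (fun h => h)
    · obtain ⟨s, t, hz, ha, hb⟩ := h1
      exact Or.inr (Or.inr (Or.inr ⟨s, t, hz, hb, by rw [ha]⟩))
  · have h' : (base p q z).Adj (Sum.inr a) (Sum.inr b) := h
    unfold base at h'
    rw [SimpleGraph.fromRel_adj] at h'
    rcases h'.2 with h1 | h1
    · have h1' : b = a + 1 := h1
      exact Or.inr (Or.inl (by rw [h1']))
    · have h1' : a = b + 1 := h1
      refine Or.inr (Or.inr (Or.inl ?_))
      rw [h1']; congr 2; ring

lemma two_ne {p : ℕ} (hp : 3 ≤ p) (a : ZMod p) : a + 1 ≠ a - 1 := by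
  intro h
  have h1 : ((2 : ℕ) : ZMod p) = 0 := by
    have : (2 : ZMod p) = 0 := by linear_combination h
    exact_mod_cast this
  rw [ZMod.natCast_eq_zero_iff] at h1
  have := Nat.le_of_dvd (by norm_num) h1
  omega

/-- A Hamilton cycle shows that the bit is `1`. -/
theorem ham_imp (hm : 1 ≤ m) (hp : 3 * m ≤ p) (hq : 3 * m ≤ q) {n : ℕ} (hn : 3 ≤ n)
    (z : Fin m × Fin m → Bool) (s t : Fin m) (f : Fin n ≃ Option (ZMod p ⊕ ZMod q))
    (hf : ∀ i, (addVertex (base p q z) (ask p q (s, t))).Adj (f i) (f (finRotate n i))) :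
    z (s, t) = true := by
  have hp3 : 3 ≤ p := by omega
  have hq3 : 3 ≤ q := by omega
  -- membership in the query
  have hQl : ∀ a : ZMod p, Sum.inl a ∈ ask p q (s, t) → a = al p s := by
    intro a ha
    unfold ask at ha
    simpa using ha
  have hQr : ∀ a : ZMod q, Sum.inr a ∈ ask p q (s, t) → a = al q t := by
    intro a ha
    unfold ask at ha
    simpa using ha
  -- the special vertex
  have h1 : nb f none = {some (Sum.inl (al p s)), some (Sum.inr (al q t))} := by
    apply nb_forced hn hf
    intro u hu
    rcases u with _ | u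
    · exact absurd hu (SimpleGraph.irrefl _)
    · have hu' : u ∈ ask p q (s, t) := hu
      unfold ask at hu'
      rw [mem_insert, mem_singleton] at hu'
      rcases hu' with rfl | rfl
      · exact Or.inl rfl
      · exact Or.inr rfl
  -- the vertex after `al s`
  have h2 : nb f (some (Sum.inl (al p s + 1)))
      = {some (Sum.inl (al p s + 1 + 1)), some (Sum.inl (al p s))} := by
    apply nb_forced hn hf
    intro u hu
    rcases adj_inl hu with ⟨_, h⟩ | h | h | ⟨s', t', _, h, _⟩
    · have := hQl _ h
      exact absurd this (by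
        intro h'
        exact two_ne hp3 (al p s) (by linear_combination 2 * h'))
    · exact Or.inl h
    · right
      rw [h]; congr 2; ring
    · exact absurd h (al_succ_ne_be hp s s')
  have h3 : (some (Sum.inl (al p s + 1)) : Option (ZMod p ⊕ ZMod q))
      ∈ nb f (some (Sum.inl (al p s))) := by
    apply nb_symm
    rw [h2]
    simp
  have h4 : (none : Option (ZMod p ⊕ ZMod q)) ∈ nb f (some (Sum.inl (al p s))) := by
    apply nb_symm
    rw [h1]
    simp
  have h5 : nb f (some (Sum.inl (al p s))) = {none, some (Sum.inl (al p s + 1))} := by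
    symm
    apply Finset.eq_of_subset_of_card_le
    · intro u hu
      rw [mem_insert, mem_singleton] at hu
      rcases hu with rfl | rfl
      · exact h4
      · exact h3
    · rw [nb_card hn, Finset.card_pair (by simp)]
  -- the vertex before `al s`
  have h6 : (some (Sum.inl (al p s)) : Option (ZMod p ⊕ ZMod q))
      ∉ nb f (some (Sum.inl (be p s))) := by
    intro h
    have := nb_symm h
    rw [h5, mem_insert, mem_singleton] at this
    rcases this with h' | h'
    · simp at h'
    · simp only [Option.some.injEq, Sum.inl.injEq] at h'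
      exact al_succ_ne_be hp s s h'.symm
  obtain ⟨j, hj, hjt⟩ : ∃ j : Fin m, z (s, j) = true ∧
      (some (Sum.inr (be q j)) : Option (ZMod p ⊕ ZMod q)) ∈ nb f (some (Sum.inl (be p s))) := by
    by_contra hcon
    push Not at hcon
    have h7 : nb f (some (Sum.inl (be p s))) ⊆ {some (Sum.inl (be p s - 1))} := by
      intro u hu
      rw [mem_singleton]
      rcases adj_inl (nb_adj hf hu) with ⟨_, h⟩ | h | h | ⟨s', t', hz, h, h'⟩
      · exact absurd (hQl _ h).symm (al_ne_be hp s s)
      · exfalso
        apply h6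
        rw [h, be_eq, sub_add_cancel] at hu
        rw [be_eq]
        exact hu
      · exact h
      · exfalso
        have := be_inj hp h
        subst this
        rw [h'] at hu
        exact hcon t' hz hu
    have := Finset.card_le_card h7
    rw [nb_card hn, card_singleton] at this
    omega
  -- the other cycle
  by_cases hjeq : j = t
  · rw [← hjeq]; exact hj
  exfalso
  have h8 : nb f (some (Sum.inr (al q j)))
      = {some (Sum.inr (al q j + 1)), some (Sum.inr (be q j))} := by
    apply nb_forced hn hf
    intro u hu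
    rcases adj_inr hu with ⟨_, h⟩ | h | h | ⟨s', t', _, h, _⟩
    · exact absurd (al_inj hq (hQr _ h)) hjeq
    · exact Or.inl h
    · right
      rw [h, be_eq]
    · exact absurd h (al_ne_be hq j t')
  have h9 : nb f (some (Sum.inr (be q j - 1)))
      = {some (Sum.inr (be q j)), some (Sum.inr (be q j - 1 - 1))} := by
    apply nb_forced hn hf
    intro u hu
    rcases adj_inr hu with ⟨_, h⟩ | h | h | ⟨s', t', _, h, _⟩
    · exact absurd (hQr _ h) (be_pred_ne_al hq j t)
    · left
      rw [h]; congr 2; ring
    · exact Or.inr h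
    · exact absurd h (be_pred_ne_be hq j t')
  have h10 : (some (Sum.inr (al q j)) : Option (ZMod p ⊕ ZMod q))
      ∈ nb f (some (Sum.inr (be q j))) := by
    apply nb_symm; rw [h8]; simp
  have h11 : (some (Sum.inr (be q j - 1)) : Option (ZMod p ⊕ ZMod q))
      ∈ nb f (some (Sum.inr (be q j))) := by
    apply nb_symm; rw [h9]; simp
  have h12 : (some (Sum.inl (be p s)) : Option (ZMod p ⊕ ZMod q))
      ∈ nb f (some (Sum.inr (be q j))) := nb_symm hjt
  have h13 : ({some (Sum.inr (al q j)), some (Sum.inr (be q j - 1)), some (Sum.inl (be p s))} :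
      Finset (Option (ZMod p ⊕ ZMod q))).card ≤ (nb f (some (Sum.inr (be q j)))).card := by
    apply Finset.card_le_card
    intro u hu
    rw [mem_insert, mem_insert, mem_singleton] at hu
    rcases hu with rfl | rfl | rfl
    · exact h10
    · exact h11
    · exact h12
  rw [nb_card hn, Finset.card_insert_of_notMem, Finset.card_pair (by simp)] at h13
  · omega
  · rw [mem_insert, mem_singleton]
    rintro (h | h)
    · simp only [Option.some.injEq, Sum.inr.injEq] at h
      exact be_pred_ne_al hq j j h.symm
    · simp at h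

/-- the positions on the Hamilton cycle -/
def place (p q : ℕ) (s t : Fin m) (k : ℕ) : Option (ZMod p ⊕ ZMod q) :=
  if k = 0 then none
  else if k ≤ p then some (Sum.inl (al p s + ((k - 1 : ℕ) : ZMod p)))
  else some (Sum.inr (be q t - ((k - 1 - p : ℕ) : ZMod q)))

lemma natCast_inj_lt {p a b : ℕ} (ha : a < p) (hb : b < p) (h : (a : ZMod p) = b) : a = b := by
  rw [ZMod.natCast_eq_natCast_iff', Nat.mod_eq_of_lt ha, Nat.mod_eq_of_lt hb] at h
  exact h

lemma place_inj (hq : 0 < q) (s t : Fin m) {k l : ℕ} (hk : k < p + q + 1) (hl : l < p + q + 1)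
    (h : place p q s t k = place p q s t l) : k = l := by
  unfold place at h
  split_ifs at h with h1 h2 h3 h4 h5 h6
  · omega
  · simp only [Option.some.injEq, Sum.inl.injEq, add_right_inj] at h
    have := natCast_inj_lt (by omega) (by omega) h
    omega
  · simp only [Option.some.injEq, reduceCtorEq] at h
  · simp only [Option.some.injEq, reduceCtorEq] at h
  · simp only [Option.some.injEq, Sum.inr.injEq, sub_right_inj] at h
    have := natCast_inj_lt (by omega) (by omega) h
    omega

/-- If the bit is `1`, there is a Hamilton cycle. -/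
theorem exists_ham (hp3 : 3 ≤ p) (hq3 : 3 ≤ q) {n : ℕ}
    (hn : n = p + q + 1) (z : Fin m × Fin m → Bool) (s t : Fin m) (hz : z (s, t) = true) :
    ∃ f : Fin n ≃ Option (ZMod p ⊕ ZMod q),
      ∀ i, (addVertex (base p q z) (ask p q (s, t))).Adj (f i) (f (finRotate n i)) := by
  subst hn
  have : NeZero p := ⟨by omega⟩
  have : NeZero q := ⟨by omega⟩
  have hcard : Fintype.card (Fin (p + q + 1)) = Fintype.card (Option (ZMod p ⊕ ZMod q)) := by
    rw [Fintype.card_option, Fintype.card_sum, ZMod.card, ZMod.card, Fintype.card_fin]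
  have hbij : Function.Bijective (fun k : Fin (p + q + 1) => place p q s t k.val) := by
    rw [Fintype.bijective_iff_injective_and_card]
    exact ⟨fun k l h => Fin.ext (place_inj (by omega) s t k.2 l.2 h), hcard⟩
  have hstep : ∀ (a : ZMod p), (base p q z).Adj (Sum.inl a) (Sum.inl (a + 1)) := by
    intro a
    unfold base
    rw [SimpleGraph.fromRel_adj]
    refine ⟨?_, Or.inl rfl⟩
    intro h
    simp only [Sum.inl.injEq] at h
    exact two_ne hp3 a (by linear_combination 2 * (-h))
  have hstep' : ∀ (a : ZMod q), (base p q z).Adj (Sum.inr a) (Sum.inr (a - 1)) := by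
    intro a
    unfold base
    rw [SimpleGraph.fromRel_adj]
    refine ⟨?_, Or.inr ?_⟩
    · intro h
      simp only [Sum.inr.injEq] at h
      exact two_ne hq3 a (by linear_combination 2 * h)
    · change a = a - 1 + 1
      ring
  refine ⟨Equiv.ofBijective _ hbij, ?_⟩
  intro i
  rw [finRotate_apply]
  simp only [Equiv.ofBijective_apply]
  by_cases hi : i = Fin.last (p + q)
  · -- the last step
    rw [hi]
    have e1 : ((Fin.last (p + q) + 1 : Fin (p + q + 1)) : ℕ) = 0 := by
      rw [Fin.last_add_one]; rfl
    rw [e1, Fin.val_last]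
    have e2 : place p q s t 0 = none := by simp [place]
    have e3 : place p q s t (p + q) = some (Sum.inr (al q t)) := by
      unfold place
      rw [if_neg (by omega), if_neg (by omega)]
      congr 2
      have e4 : p + q - 1 - p = q - 1 := by omega
      rw [e4, be_eq, Nat.cast_sub (by omega : 1 ≤ q), ZMod.natCast_self]
      push_cast
      ring
    rw [e2, e3]
    change Sum.inr (al q t) ∈ ask p q (s, t)
    simp [ask]
  · have hlt : i.val < p + q := by
      have := Fin.val_lt_last hi
      exact this
    have e1 : ((i + 1 : Fin (p + q + 1)) : ℕ) = i.val + 1 := Fin.val_add_one_of_lt (by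
      rw [Fin.lt_def, Fin.val_last]; exact hlt)
    rw [e1]
    rcases Nat.eq_zero_or_pos i.val with h0 | h0
    · rw [h0]
      have e2 : place p q s t 0 = none := by simp [place]
      have e3 : place p q s t (0 + 1) = some (Sum.inl (al p s)) := by
        unfold place
        rw [if_neg (by omega), if_pos (by omega)]
        simp
      rw [e2, e3]
      change Sum.inl (al p s) ∈ ask p q (s, t)
      simp [ask]
    rcases lt_trichotomy i.val p with h | h | h
    · have e2 : place p q s t i.val = some (Sum.inl (al p s + ((i.val - 1 : ℕ) : ZMod p))) := by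
        unfold place
        rw [if_neg (by omega), if_pos (by omega)]
      have e3 : place p q s t (i.val + 1)
          = some (Sum.inl (al p s + ((i.val - 1 : ℕ) : ZMod p) + 1)) := by
        unfold place
        rw [if_neg (by omega), if_pos (by omega)]
        congr 2
        have e4 : i.val + 1 - 1 = (i.val - 1) + 1 := by omega
        rw [e4]
        push_cast
        ring
      rw [e2, e3]
      exact hstep _
    · rw [h]
      have e2 : place p q s t p = some (Sum.inl (be p s)) := by
        unfold place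
        rw [if_neg (by omega), if_pos le_rfl, be_eq, Nat.cast_sub (by omega : 1 ≤ p),
          ZMod.natCast_self]
        congr 2
        push_cast
        ring
      have e3 : place p q s t (p + 1) = some (Sum.inr (be q t)) := by
        unfold place
        rw [if_neg (by omega), if_neg (by omega)]
        simp
      rw [e2, e3]
      change (base p q z).Adj (Sum.inl (be p s)) (Sum.inr (be q t))
      unfold base
      rw [SimpleGraph.fromRel_adj]
      exact ⟨by simp, Or.inl ⟨s, t, hz, rfl, rfl⟩⟩
    · have e2 : place p q s t i.val = some (Sum.inr (be q t - ((i.val - 1 - p : ℕ) : ZMod q))) := by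
        unfold place
        rw [if_neg (by omega), if_neg (by omega)]
      have e3 : place p q s t (i.val + 1)
          = some (Sum.inr (be q t - ((i.val - 1 - p : ℕ) : ZMod q) - 1)) := by
        unfold place
        rw [if_neg (by omega), if_neg (by omega)]
        congr 2
        have e4 : i.val + 1 - 1 - p = (i.val - 1 - p) + 1 := by omega
        rw [e4]
        push_cast
        ring
      rw [e2, e3]
      exact hstep' _

/-- The bits can be queried with one row. -/
theorem ham_query (hm : 1 ≤ m) {n : ℕ} (hn : 6 * m + 1 ≤ n) (i : Fin n) (hi : i.val + 2 * m < n) :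
    ∃ (Q : Fin m × Fin m → Fin n → Bool) (R : (Fin m × Fin m → Bool) → Fin n → Fin n → Bool),
      ∀ t z, ham (Function.update (R z) i (Q t)) = z t := by
  classical
  obtain ⟨p, q, hp, hq, hpq⟩ : ∃ p q, 3 * m ≤ p ∧ 3 * m ≤ q ∧ n = p + q + 1 :=
    ⟨3 * m, n - 1 - 3 * m, le_rfl, by omega, by omega⟩
  have : NeZero p := ⟨by omega⟩
  have : NeZero q := ⟨by omega⟩
  let A : Finset (ZMod p ⊕ ZMod q) := (univ.image (fun s : Fin m => Sum.inl (al p s))) ∪
    (univ.image (fun s : Fin m => Sum.inr (al q s)))
  have hA : A.card ≤ 2 * m := by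
    calc A.card ≤ _ + _ := card_union_le _ _
      _ ≤ m + m := by
          apply Nat.add_le_add
          · exact card_image_le.trans (by simp)
          · exact card_image_le.trans (by simp)
      _ = 2 * m := by ring
  obtain ⟨e, he, heA⟩ := exists_label (V := ZMod p ⊕ ZMod q) (n := n)
    (by rw [Fintype.card_sum, ZMod.card, ZMod.card]; omega) i A (by omega)
  have hask : ∀ t : Fin m × Fin m, ask p q t ⊆ A := by
    intro t u hu
    unfold ask at hu
    rw [mem_insert, mem_singleton] at hu
    rw [mem_union]
    rcases hu with rfl | rfl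
    · exact Or.inl (mem_image.2 ⟨t.1, mem_univ _, rfl⟩)
    · exact Or.inr (mem_image.2 ⟨t.2, mem_univ _, rfl⟩)
  refine ⟨fun t => query e (ask p q t), fun z => rows e (base p q z), ?_⟩
  rintro ⟨s, t⟩ z
  have hadj : ∀ a b : Option (ZMod p ⊕ ZMod q),
      (graph (Function.update (rows e (base p q z)) i (query e (ask p q (s, t))))).Adj (e a) (e b)
        ↔ (addVertex (base p q z) (ask p q (s, t))).Adj a b := by
    intro a b
    rw [← he]
    exact graph_rows e (hask (s, t)) (fun v hv => by rw [he]; exact heA v hv) a b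
  unfold ham
  cases hz : z (s, t) with
  | true =>
    rw [decide_eq_true_iff]
    obtain ⟨f, hf⟩ := exists_ham (by omega) (by omega) hpq z s t hz
    refine ⟨f.trans e, fun k => ?_⟩
    rw [Equiv.trans_apply, Equiv.trans_apply, hadj]
    exact hf k
  | false =>
    rw [decide_eq_false_iff_not]
    rintro ⟨f, hf⟩
    have := ham_imp hm hp hq (by omega) z s t (f.trans e.symm) (fun k => by
      rw [Equiv.trans_apply, Equiv.trans_apply, ← hadj, Equiv.apply_symm_apply,
        Equiv.apply_symm_apply]
      exact hf k)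
    rw [hz] at this
    exact absurd this (by simp)

end

end Pool.Agent.TH697.Row
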