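import Pool.Agent.TH697.Row.Graph

set_option autoImplicit false

/-! # Cliques and one row of the adjacency matrix -/

namespace Pool.Agent.TH697.Row

open Finset

section

variable {m d w : ℕ}

/-- half of the adjacency relation: two independent sets, with edges between them according to the
string, a clique joined to both, and isolated vertices -/
def crel (z : Fin m × Fin m → Bool) :
    (Fin m ⊕ Fin m) ⊕ (Fin d ⊕ Fin w) → (Fin m ⊕ Fin m) ⊕ (Fin d ⊕ Fin w) → Prop
  | Sum.inl (Sum.inl s), Sum.inl (Sum.inr t) => z (s, t) = true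
  | Sum.inl _, Sum.inr (Sum.inl _) => True
  | Sum.inr (Sum.inl _), Sum.inr (Sum.inl _) => True
  | _, _ => False

/-- the graph -/
def cbase (d w : ℕ) (z : Fin m × Fin m → Bool) : SimpleGraph ((Fin m ⊕ Fin m) ⊕ (Fin d ⊕ Fin w)) :=
  SimpleGraph.fromRel (crel z)

/-- the neighbours of the special vertex -/
def cask (d w : ℕ) (t : Fin m × Fin m) : Finset ((Fin m ⊕ Fin m) ⊕ (Fin d ⊕ Fin w)) :=
  {Sum.inl (Sum.inl t.1), Sum.inl (Sum.inr t.2)} ∪
    univ.image (fun j : Fin d => Sum.inr (Sum.inl j))

/-- the class of a vertex -/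
def cls : Option ((Fin m ⊕ Fin m) ⊕ (Fin d ⊕ Fin w)) → Fin d ⊕ Fin 3
  | none => Sum.inr 0
  | some (Sum.inl (Sum.inl _)) => Sum.inr 1
  | some (Sum.inl (Sum.inr _)) => Sum.inr 2
  | some (Sum.inr (Sum.inl j)) => Sum.inl j
  | some (Sum.inr (Sum.inr _)) => Sum.inr 0

theorem clique_imp (z : Fin m × Fin m → Bool) (s t : Fin m)
    (S : Finset (Option ((Fin m ⊕ Fin m) ⊕ (Fin d ⊕ Fin w))))
    (hS : (addVertex (cbase d w z) (cask d w (s, t))).IsClique
      (S : Set (Option ((Fin m ⊕ Fin m) ⊕ (Fin d ⊕ Fin w)))))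
    (hcard : d + 3 ≤ S.card) : z (s, t) = true := by
  classical
  have hadj : ∀ a ∈ S, ∀ b ∈ S, a ≠ b → (addVertex (cbase d w z) (cask d w (s, t))).Adj a b :=
    fun a ha b hb hab => hS (Finset.mem_coe.2 ha) (Finset.mem_coe.2 hb) hab
  -- no isolated vertices
  have hiso : ∀ j : Fin w, some (Sum.inr (Sum.inr j)) ∉ S := by
    intro j hj
    obtain ⟨b, hb, hne⟩ := Finset.exists_mem_ne (by omega : 1 < S.card)
      (some (Sum.inr (Sum.inr j)) : Option ((Fin m ⊕ Fin m) ⊕ (Fin d ⊕ Fin w)))
    have h := hadj _ hj _ hb hne.symm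
    rcases b with _ | ((b | b) | (b | b))
    · have h' : Sum.inr (Sum.inr j) ∈ cask d w (s, t) := h
      simp [cask] at h'
    all_goals
      have h' : (cbase d w z).Adj _ _ := h
      unfold cbase at h'
      rw [SimpleGraph.fromRel_adj] at h'
      rcases h'.2 with h1 | h1 <;> exact h1
  have hinj : Set.InjOn (cls (m := m) (d := d) (w := w)) S := by
    intro a ha b hb hab
    by_contra hne
    have h := hadj a ha b hb hne
    rcases a with _ | ((a | a) | (a | a)) <;> rcases b with _ | ((b | b) | (b | b))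
    · exact hne rfl
    · simp [cls] at hab
    · simp [cls] at hab
    · simp [cls] at hab
    · exact hiso _ hb
    · simp [cls] at hab
    · have h' : (cbase d w z).Adj _ _ := h
      unfold cbase at h'
      rw [SimpleGraph.fromRel_adj] at h'
      rcases h'.2 with h1 | h1 <;> exact h1
    · simp [cls] at hab
    · simp [cls] at hab
    · exact hiso _ hb
    · simp [cls] at hab
    · simp [cls] at hab
    · have h' : (cbase d w z).Adj _ _ := h
      unfold cbase at h'
      rw [SimpleGraph.fromRel_adj] at h'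
      rcases h'.2 with h1 | h1 <;> exact h1
    · simp [cls] at hab
    · exact hiso _ hb
    · simp [cls] at hab
    · simp [cls] at hab
    · simp [cls] at hab
    · simp only [cls, Sum.inl.injEq] at hab
      exact hne (by rw [hab])
    · exact hiso _ hb
    · exact hiso _ ha
    · exact hiso _ ha
    · exact hiso _ ha
    · exact hiso _ ha
    · exact hiso _ ha
  have himg : S.image cls = (univ : Finset (Fin d ⊕ Fin 3)) := by
    apply Finset.eq_univ_of_card
    apply le_antisymm (Finset.card_le_univ _)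
    rw [Finset.card_image_of_injOn hinj, Fintype.card_sum, Fintype.card_fin, Fintype.card_fin]
    exact hcard
  have h0 : none ∈ S := by
    have : (Sum.inr 0 : Fin d ⊕ Fin 3) ∈ S.image cls := by rw [himg]; exact mem_univ _
    obtain ⟨a, ha, hcl⟩ := mem_image.1 this
    rcases a with _ | ((a | a) | (a | a))
    · exact ha
    · simp [cls] at hcl
    · simp [cls] at hcl
    · simp [cls] at hcl
    · exact absurd ha (hiso _)
  obtain ⟨a, ha⟩ : ∃ a : Fin m, some (Sum.inl (Sum.inl a)) ∈ S := by
    have : (Sum.inr 1 : Fin d ⊕ Fin 3) ∈ S.image cls := by rw [himg]; exact mem_univ _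
    obtain ⟨a, ha, hcl⟩ := mem_image.1 this
    rcases a with _ | ((a | a) | (a | a))
    · simp [cls] at hcl
    · exact ⟨a, ha⟩
    · simp [cls] at hcl
    · simp [cls] at hcl
    · exact absurd ha (hiso _)
  obtain ⟨b, hb⟩ : ∃ b : Fin m, some (Sum.inl (Sum.inr b)) ∈ S := by
    have : (Sum.inr 2 : Fin d ⊕ Fin 3) ∈ S.image cls := by rw [himg]; exact mem_univ _
    obtain ⟨a, ha, hcl⟩ := mem_image.1 this
    rcases a with _ | ((a | a) | (a | a))
    · simp [cls] at hcl
    · simp [cls] at hcl
    · exact ⟨a, ha⟩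
    · simp [cls] at hcl
    · exact absurd ha (hiso _)
  have h1 : Sum.inl (Sum.inl a) ∈ cask d w (s, t) := hadj _ h0 _ ha (by simp)
  have h2 : Sum.inl (Sum.inr b) ∈ cask d w (s, t) := hadj _ h0 _ hb (by simp)
  have h3 : (cbase d w z).Adj (Sum.inl (Sum.inl a)) (Sum.inl (Sum.inr b)) := by
    have := hadj _ ha _ hb (by simp)
    exact this
  have e1 : a = s := by simpa [cask] using h1
  have e2 : b = t := by simpa [cask] using h2
  unfold cbase at h3
  rw [SimpleGraph.fromRel_adj] at h3
  rcases h3.2 with h4 | h4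
  · have h5 : z (a, b) = true := h4
    rw [← e1, ← e2]
    exact h5
  · exact absurd h4 (fun h => h)

/-- the clique -/
def cset (s t : Fin m) : Finset (Option ((Fin m ⊕ Fin m) ⊕ (Fin d ⊕ Fin w))) :=
  {none, some (Sum.inl (Sum.inl s)), some (Sum.inl (Sum.inr t))} ∪
    univ.image (fun j : Fin d => some (Sum.inr (Sum.inl j)))

theorem cset_card (s t : Fin m) : (cset (d := d) (w := w) s t).card = d + 3 := by
  classical
  unfold cset
  rw [card_union_of_disjoint, card_image_of_injective, card_univ, Fintype.card_fin,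
    Finset.card_insert_of_notMem (by simp), Finset.card_pair (by simp)]
  · ring
  · intro a b h
    simpa using h
  · rw [Finset.disjoint_left]
    intro a ha hb
    obtain ⟨j, _, rfl⟩ := mem_image.1 hb
    simp at ha

theorem cset_clique (z : Fin m × Fin m → Bool) (s t : Fin m) (hz : z (s, t) = true) :
    (addVertex (cbase d w z) (cask d w (s, t))).IsClique
      (cset (d := d) (w := w) s t : Set (Option ((Fin m ⊕ Fin m) ⊕ (Fin d ⊕ Fin w)))) := by
  classical
  have hsymm : ∀ a b, (addVertex (cbase d w z) (cask d w (s, t))).Adj a b →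
      (addVertex (cbase d w z) (cask d w (s, t))).Adj b a := fun a b h => h.symm
  have h01 : (addVertex (cbase d w z) (cask d w (s, t))).Adj none (some (Sum.inl (Sum.inl s))) := by
    change Sum.inl (Sum.inl s) ∈ cask d w (s, t)
    simp [cask]
  have h02 : (addVertex (cbase d w z) (cask d w (s, t))).Adj none (some (Sum.inl (Sum.inr t))) := by
    change Sum.inl (Sum.inr t) ∈ cask d w (s, t)
    simp [cask]
  have h0 : ∀ j, (addVertex (cbase d w z) (cask d w (s, t))).Adj none
      (some (Sum.inr (Sum.inl j))) := by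
    intro j
    change Sum.inr (Sum.inl j) ∈ cask d w (s, t)
    simp [cask]
  have h12 : (addVertex (cbase d w z) (cask d w (s, t))).Adj (some (Sum.inl (Sum.inl s)))
      (some (Sum.inl (Sum.inr t))) := by
    change (cbase d w z).Adj _ _
    unfold cbase
    rw [SimpleGraph.fromRel_adj]
    exact ⟨by simp, Or.inl hz⟩
  have h1 : ∀ a j, (addVertex (cbase d w z) (cask d w (s, t))).Adj (some (Sum.inl a))
      (some (Sum.inr (Sum.inl j))) := by
    intro a j
    change (cbase d w z).Adj _ _
    unfold cbase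
    rw [SimpleGraph.fromRel_adj]
    refine ⟨by simp, Or.inl ?_⟩
    rcases a with a | a <;> trivial
  have hd : ∀ j j' : Fin d, j ≠ j' → (addVertex (cbase d w z) (cask d w (s, t))).Adj
      (some (Sum.inr (Sum.inl j))) (some (Sum.inr (Sum.inl j'))) := by
    intro j j' hj
    change (cbase d w z).Adj _ _
    unfold cbase
    rw [SimpleGraph.fromRel_adj]
    exact ⟨by simpa using hj, Or.inl trivial⟩
  intro a ha b hb hab
  rw [Finset.mem_coe] at ha hb
  unfold cset at ha hb
  rw [mem_union, mem_insert, mem_insert, mem_singleton, mem_image] at ha hb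
  rcases ha with (rfl | rfl | rfl) | ⟨j, _, rfl⟩ <;>
    rcases hb with (rfl | rfl | rfl) | ⟨j', _, rfl⟩
  · exact absurd rfl hab
  · exact h01
  · exact h02
  · exact h0 _
  · exact hsymm _ _ h01
  · exact absurd rfl hab
  · exact h12
  · exact h1 _ _
  · exact hsymm _ _ h02
  · exact hsymm _ _ h12
  · exact absurd rfl hab
  · exact h1 _ _
  · exact hsymm _ _ (h0 _)
  · exact hsymm _ _ (h1 _ _)
  · exact hsymm _ _ (h1 _ _)
  · exact hd _ _ (fun h => hab (by rw [h]))

/-- The bits can be queried with one row. -/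
theorem clique_query {n : ℕ} (hn : 36 ≤ n) (hm : 6 * m + 1 ≤ n) (i : Fin n)
    (hi : i.val < n / 2) :
    ∃ (Q : Fin m × Fin m → Fin n → Bool) (R : (Fin m × Fin m → Bool) → Fin n → Fin n → Bool),
      ∀ t z, clique (Function.update (R z) i (Q t)) = z t := by
  classical
  have hs1 : Nat.sqrt n * Nat.sqrt n ≤ n := Nat.sqrt_le n
  have hs2 : n < (Nat.sqrt n + 1) * (Nat.sqrt n + 1) := Nat.lt_succ_sqrt n
  have hs3 : 6 ≤ Nat.sqrt n := by
    rw [Nat.le_sqrt]; omega
  have hs4 : 6 * Nat.sqrt n ≤ n := (Nat.mul_le_mul_right _ hs3).trans hs1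
  obtain ⟨d, hd⟩ : ∃ d, d + 2 = Nat.sqrt n := ⟨Nat.sqrt n - 2, by omega⟩
  have hlt : i.val + (2 * m + d) < n := by omega
  obtain ⟨w, hw⟩ : ∃ w, 2 * m + d + w + 1 = n := ⟨n - 1 - (2 * m + d), by omega⟩
  let A : Finset ((Fin m ⊕ Fin m) ⊕ (Fin d ⊕ Fin w)) :=
    (univ.image (fun s : Fin m ⊕ Fin m => Sum.inl s)) ∪
    (univ.image (fun j : Fin d => Sum.inr (Sum.inl j)))
  have hA : A.card ≤ 2 * m + d := by
    calc A.card ≤ _ + _ := card_union_le _ _
      _ ≤ 2 * m + d := by
          apply Nat.add_le_add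
          · refine card_image_le.trans ?_
            rw [card_univ, Fintype.card_sum, Fintype.card_fin]; omega
          · exact card_image_le.trans (by simp)
  obtain ⟨e, he, heA⟩ := exists_label (V := (Fin m ⊕ Fin m) ⊕ (Fin d ⊕ Fin w)) (n := n)
    (by simp only [Fintype.card_sum, Fintype.card_fin]; omega) i A (by omega)
  have hask : ∀ t : Fin m × Fin m, cask d w t ⊆ A := by
    intro t u hu
    unfold cask at hu
    rw [mem_union, mem_insert, mem_singleton] at hu
    rw [mem_union]
    rcases hu with (rfl | rfl) | hu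
    · exact Or.inl (mem_image.2 ⟨_, mem_univ _, rfl⟩)
    · exact Or.inl (mem_image.2 ⟨_, mem_univ _, rfl⟩)
    · exact Or.inr hu
  refine ⟨fun t => query e (cask d w t), fun z => rows e (cbase d w z), ?_⟩
  rintro ⟨s, t⟩ z
  have hadj : ∀ a b : Option ((Fin m ⊕ Fin m) ⊕ (Fin d ⊕ Fin w)),
      (graph (Function.update (rows e (cbase d w z)) i (query e (cask d w (s, t))))).Adj
        (e a) (e b) ↔ (addVertex (cbase d w z) (cask d w (s, t))).Adj a b := by
    intro a b
    rw [← he]
    exact graph_rows e (hask (s, t)) (fun v hv => by rw [he]; exact heA v hv) a b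
  unfold clique
  cases hz : z (s, t) with
  | true =>
    rw [decide_eq_true_iff]
    refine ⟨(cset (d := d) (w := w) s t).map e.toEmbedding, ?_, ?_⟩
    · intro a ha b hb hab
      rw [Finset.mem_coe, mem_map_equiv] at ha hb
      have h1 := cset_clique (d := d) (w := w) z s t hz (Finset.mem_coe.2 ha) (Finset.mem_coe.2 hb)
        (fun h => hab (e.symm.injective h))
      have h2 := (hadj _ _).2 h1
      rwa [Equiv.apply_symm_apply, Equiv.apply_symm_apply] at h2
    · rw [card_map, cset_card]
      have : d + 3 = Nat.sqrt n + 1 := by omega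
      rw [this, sq]
      exact hs2
  | false =>
    rw [decide_eq_false_iff_not]
    rintro ⟨S, hS, hcard⟩
    have h1 : z (s, t) = true := by
      apply clique_imp z s t (S.map e.symm.toEmbedding)
      · intro a ha b hb hab
        rw [Finset.mem_coe, mem_map_equiv, Equiv.symm_symm] at ha hb
        rw [← hadj]
        exact hS (Finset.mem_coe.2 ha) (Finset.mem_coe.2 hb) (fun h => hab (e.injective h))
      · rw [card_map]
        by_contra hcon
        push Not at hcon
        have h2 : S.card ≤ Nat.sqrt n := by omega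
        have h3 : S.card ^ 2 ≤ Nat.sqrt n * Nat.sqrt n := by
          rw [sq]; exact Nat.mul_le_mul h2 h2
        omega
    rw [hz] at h1
    exact absurd h1 (by simp)

end

end Pool.Agent.TH697.Row
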