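import Pool.Agent.TH697.Row.GraphDefs

set_option autoImplicit false

/-! # Encoding graphs with one special vertex -/

namespace Pool.Agent.TH697.Row

open Finset

section

variable {V : Type} [Fintype V] [DecidableEq V]

/-- the graph `B` with an additional vertex `none` with the neighbours in `Q` -/
def addVertex (B : SimpleGraph V) (Q : Finset V) : SimpleGraph (Option V) where
  Adj a b := match a, b with
    | none, none => False
    | none, some v => v ∈ Q
    | some v, none => v ∈ Q
    | some v, some w => B.Adj v w
  symm := ⟨by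
    intro a b h
    rcases a with _ | v <;> rcases b with _ | w <;> simp_all [B.adj_comm]⟩
  loopless := ⟨by
    intro a h
    rcases a with _ | v <;> simp_all⟩

/-- There is a numbering with prescribed properties. -/
theorem exists_label {n : ℕ} (hn : Fintype.card V + 1 = n) (i : Fin n) (A : Finset V)
    (hA : A.card + i.val < n) : ∃ e : Option V ≃ Fin n, e none = i ∧ ∀ v ∈ A, i < e (some v) := by
  classical
  have hcard : Fintype.card (Option V) = n := by rw [Fintype.card_option, hn]
  let e₀ : Option V ≃ Fin n := Fintype.equivFinOfCardEq hcard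
  obtain ⟨ψ⟩ : Nonempty (A ↪ (Finset.Ioi i : Finset (Fin n))) := by
    apply Function.Embedding.nonempty_of_card_le
    rw [Fintype.card_coe, Fintype.card_coe, Fin.card_Ioi]
    omega
  let p : Fin n → Prop := fun x => x = e₀ none ∨ ∃ v ∈ A, x = e₀ (some v)
  let g : Option V → Fin n := fun w => match w with
    | none => i
    | some v => if hv : v ∈ A then (ψ ⟨v, hv⟩ : Fin n) else i
  let j : {x // p x} → Fin n := fun x => g (e₀.symm x.1)
  have hgA : ∀ v (hv : v ∈ A), g (some v) = (ψ ⟨v, hv⟩ : Fin n) := by
    intro v hv
    simp [g, hv]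
  have hj : Function.Injective j := by
    rintro ⟨x, hx⟩ ⟨y, hy⟩ hxy
    simp only [j] at hxy
    have key : e₀.symm x = e₀.symm y := by
      rcases hx with rfl | ⟨v, hv, rfl⟩ <;> rcases hy with rfl | ⟨w, hw, rfl⟩
      · rfl
      · rw [Equiv.symm_apply_apply, Equiv.symm_apply_apply, hgA w hw] at hxy
        have := (mem_Ioi.1 (ψ ⟨w, hw⟩).2)
        rw [← hxy] at this
        exact absurd this (lt_irrefl _)
      · rw [Equiv.symm_apply_apply, Equiv.symm_apply_apply, hgA v hv] at hxy
        have := (mem_Ioi.1 (ψ ⟨v, hv⟩).2)
        rw [hxy] at this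
        exact absurd this (lt_irrefl _)
      · rw [Equiv.symm_apply_apply, Equiv.symm_apply_apply, hgA v hv, hgA w hw] at hxy
        have h1 := ψ.injective (Subtype.ext hxy)
        have h2 : v = w := congrArg Subtype.val h1
        rw [h2]
    exact Subtype.ext (e₀.symm.injective key)
  let E := (Equiv.ofInjective j hj)
  let π : Equiv.Perm (Fin n) := E.extendSubtype
  have hπ : ∀ x (hx : p x), π x = g (e₀.symm x) := fun x hx =>
    E.extendSubtype_apply_of_mem x hx
  refine ⟨e₀.trans π, ?_, ?_⟩
  · rw [Equiv.trans_apply, hπ _ (Or.inl rfl), Equiv.symm_apply_apply]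
  · intro v hv
    rw [Equiv.trans_apply, hπ _ (Or.inr ⟨v, hv, rfl⟩), Equiv.symm_apply_apply, hgA v hv]
    exact mem_Ioi.1 (ψ ⟨v, hv⟩).2

variable {n : ℕ} (e : Option V ≃ Fin n)

open Classical in
/-- the rows of a graph without edges at the vertex `none` -/
noncomputable def rows (B : SimpleGraph V) : Fin n → Fin n → Bool := fun a b =>
  decide ((addVertex B ∅).Adj (e.symm a) (e.symm b))

/-- the row of the special vertex -/
def query (Q : Finset V) : Fin n → Bool := fun b =>
  match e.symm b with
  | none => false
  | some v => decide (v ∈ Q)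

theorem graph_rows {B : SimpleGraph V} {Q A : Finset V} (hQ : Q ⊆ A)
    (hA : ∀ v ∈ A, e none < e (some v)) (a b : Option V) :
    (graph (Function.update (rows e B) (e none) (query e Q))).Adj (e a) (e b)
      ↔ (addVertex B Q).Adj a b := by
  classical
  have h1 : ∀ a b : Option V, a ≠ none → (Function.update (rows e B) (e none) (query e Q)
      (e a) (e b) = true ↔ (addVertex B ∅).Adj a b) := by
    intro a b ha
    have hne : e a ≠ e none := fun h => ha (e.injective h)
    rw [Function.update_of_ne hne]
    simp [rows]
  have h2 : ∀ b : Option V, (Function.update (rows e B) (e none) (query e Q)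
      (e none) (e b) = true ↔ ∃ v ∈ Q, b = some v) := by
    intro b
    rw [Function.update_self]
    unfold query
    rw [Equiv.symm_apply_apply]
    rcases b with _ | v
    · simp
    · simp
  unfold graph
  simp only
  rcases a with _ | v <;> rcases b with _ | w
  · constructor
    · rintro (⟨h, _⟩ | ⟨h, _⟩) <;> exact absurd h (lt_irrefl _)
    · intro h
      exact absurd h (by simp [addVertex])
  · rw [h2, h1 (some w) none (by simp)]
    constructor
    · rintro (⟨_, v, hv, he⟩ | ⟨_, h⟩)
      · simp only [Option.some.injEq] at he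
        subst he
        exact hv
      · simp [addVertex] at h
    · intro h
      have h' : w ∈ Q := h
      exact Or.inl ⟨hA w (hQ h'), w, h', rfl⟩
  · rw [h2, h1 (some v) none (by simp)]
    constructor
    · rintro (⟨_, h⟩ | ⟨_, v', hv, he⟩)
      · simp [addVertex] at h
      · simp only [Option.some.injEq] at he
        subst he
        exact hv
    · intro h
      have h' : v ∈ Q := h
      exact Or.inr ⟨hA v (hQ h'), v, h', rfl⟩
  · rw [h1 (some v) (some w) (by simp), h1 (some w) (some v) (by simp)]
    have e1 : (addVertex B ∅).Adj (some v) (some w) ↔ B.Adj v w := Iff.rfl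
    have e2 : (addVertex B ∅).Adj (some w) (some v) ↔ B.Adj w v := Iff.rfl
    have e3 : (addVertex B Q).Adj (some v) (some w) ↔ B.Adj v w := Iff.rfl
    rw [e1, e2, e3, B.adj_comm w v]
    constructor
    · rintro (⟨_, h⟩ | ⟨_, h⟩) <;> exact h
    · intro h
      have hne : e (some v) ≠ e (some w) := fun hh => h.ne (by
        have := e.injective hh
        simpa using this)
      rcases lt_or_gt_of_ne hne with h' | h'
      · exact Or.inl ⟨h', h⟩
      · exact Or.inr ⟨h', h⟩

end

end Pool.Agent.TH697.Row
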