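import Mathlib

set_option autoImplicit false

/-! # Graphs given by rows of the adjacency matrix -/

namespace Pool.Agent.TH697.Row

/-- The graph given by the upper half of the adjacency matrix `x`. Item `i` of the input is the row
`x i`; only its bits `x i j` with `i < j` are used. -/
def graph {n : ℕ} (x : Fin n → Fin n → Bool) : SimpleGraph (Fin n) where
  Adj i j := (i < j ∧ x i j = true) ∨ (j < i ∧ x j i = true)
  symm := ⟨fun _ _ h => h.symm⟩
  loopless := ⟨fun i h => by rcases h with h | h <;> exact lt_irrefl i h.1⟩

open Classical in
/-- The graph has a Hamilton cycle `f 0, f 1, …, f (n - 1), f 0` (used for `n ≥ 3`). -/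
noncomputable def ham {n : ℕ} (x : Fin n → Fin n → Bool) : Bool :=
  decide (∃ f : Fin n ≃ Fin n, ∀ i, (graph x).Adj (f i) (f (finRotate n i)))

open Classical in
/-- The graph has a clique with more than `√n` vertices. -/
noncomputable def clique {n : ℕ} (x : Fin n → Fin n → Bool) : Bool :=
  decide (∃ S : Finset (Fin n), (graph x).IsClique (S : Set (Fin n)) ∧ n < S.card ^ 2)

end Pool.Agent.TH697.Row
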